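import Pool.Agent.H28.EN.Targets

/-!
# Two waves with distant frequencies cannot both correlate
-/

set_option autoImplicit false

open Finset Pool.Agent.H6.N4D Pool.Agent.H93.EB Pool.Agent.H28.EN

namespace Pool.Agent.H88.EN

/-- the number of the multiples in a window -/
theorem card_mult (q N n : ℕ) (hq : 1 ≤ q) :
    (q : ℝ) * (((Ioc n (n + N)).filter (fun m => q ∣ m)).card : ℝ) ≤ N + q := by
  have h1 := Nat.Ioc_filter_dvd_card_eq_div (n + N) q
  have h2 := Nat.Ioc_filter_dvd_card_eq_div n q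
  have h3 : (Ioc 0 (n + N)).filter (fun m => q ∣ m) =
      (Ioc 0 n).filter (fun m => q ∣ m) ∪ (Ioc n (n + N)).filter (fun m => q ∣ m) := by
    rw [← Finset.filter_union]
    congr 1
    ext m
    simp only [mem_union, mem_Ioc]
    omega
  have h4 : Disjoint ((Ioc 0 n).filter (fun m => q ∣ m))
      ((Ioc n (n + N)).filter (fun m => q ∣ m)) := by
    rw [Finset.disjoint_left]
    intro m hm hm'
    rw [mem_filter, mem_Ioc] at hm hm'
    omega
  have h5 := Finset.card_union_of_disjoint h4
  rw [← h3, h1, h2] at h5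
  have h6 : q * ((n + N) / q) ≤ n + N := Nat.mul_div_le _ _
  have h7 : n < q * (n / q) + q := by
    have := Nat.lt_mul_div_succ n (show 0 < q by omega)
    rw [mul_add, mul_one] at this
    exact this
  have h8 : q * ((Ioc n (n + N)).filter (fun m => q ∣ m)).card ≤ N + q := by
    have h9 : q * ((n + N) / q) = q * (n / q) +
        q * ((Ioc n (n + N)).filter (fun m => q ∣ m)).card := by rw [h5, mul_add]
    omega
  exact_mod_cast h8

theorem cos_add_cos_le (x y : ℝ) :
    |Real.cos x + Real.cos y| ≤ 1 + (Real.cos (x + y) + Real.cos (x - y)) / 2 := by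
  have h1 : Real.cos (x + y) + Real.cos (x - y) = 2 * (Real.cos x * Real.cos y) := by
    rw [Real.cos_add, Real.cos_sub]
    ring
  rw [h1]
  have hx := Real.neg_one_le_cos x
  have hx' := Real.cos_le_one x
  have hy := Real.neg_one_le_cos y
  have hy' := Real.cos_le_one y
  rw [abs_le]
  constructor <;> nlinarith

theorem pf_FAR (h : T_GEO) : T_FAR := by
  intro f q N n θ φ θ' φ' hq hN hf h1 h2
  have hN0 : (0 : ℝ) < N := by exact_mod_cast (by omega : 0 < N)
  have hq0 : (0 : ℝ) < q := by exact_mod_cast (by omega : 0 < q)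
  have hpos : 0 < 5 * (q : ℝ) / N := by positivity
  have g1 := h q N n (θ - θ') (φ - φ') hq (lt_of_lt_of_le hpos h1)
  have g2 := h q N n (θ + θ') (φ + φ') hq (lt_of_lt_of_le hpos h2)
  have k : ∀ x : ℝ, 5 * (q : ℝ) / N ≤ x → 1 / (2 * x) ≤ N / (10 * q) := by
    intro x hx
    have hx0 := lt_of_lt_of_le hpos hx
    rw [div_le_div_iff₀ (by positivity) (by positivity)]
    rw [div_le_iff₀ hN0] at hx
    linarith
  have g1' := (le_abs_self _).trans (g1.trans (k _ h1))
  have g2' := (le_abs_self _).trans (g2.trans (k _ h2))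
  have hc := card_mult q N n hq
  have hsum : ∑ m ∈ Ioc n (n + N), f m * Real.cos (2 * Real.pi * (θ * m + φ)) +
      ∑ m ∈ Ioc n (n + N), f m * Real.cos (2 * Real.pi * (θ' * m + φ')) ≤
      ∑ m ∈ (Ioc n (n + N)).filter (fun m => q ∣ m),
        ((q : ℝ) + q / 2 * Real.cos (2 * Real.pi * ((θ + θ') * m + (φ + φ'))) +
          q / 2 * Real.cos (2 * Real.pi * ((θ - θ') * m + (φ - φ')))) := by
    rw [← Finset.sum_add_distrib, Finset.sum_filter]
    refine Finset.sum_le_sum fun m _ => ?_
    have hfm := hf m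
    by_cases hm : q ∣ m
    · rw [if_pos hm] at hfm
      rw [if_pos hm]
      have e1 := cos_add_cos_le (2 * Real.pi * (θ * m + φ)) (2 * Real.pi * (θ' * m + φ'))
      have e2 : 2 * Real.pi * (θ * m + φ) + 2 * Real.pi * (θ' * m + φ') =
          2 * Real.pi * ((θ + θ') * m + (φ + φ')) := by ring
      have e3 : 2 * Real.pi * (θ * m + φ) - 2 * Real.pi * (θ' * m + φ') =
          2 * Real.pi * ((θ - θ') * m + (φ - φ')) := by ring
      rw [e2, e3] at e1
      have e4 : f m * Real.cos (2 * Real.pi * (θ * m + φ)) +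
          f m * Real.cos (2 * Real.pi * (θ' * m + φ')) ≤
          |f m| * |Real.cos (2 * Real.pi * (θ * m + φ)) +
            Real.cos (2 * Real.pi * (θ' * m + φ'))| := by
        rw [← abs_mul, ← mul_add]
        exact le_abs_self _
      have e5 : |f m| * |Real.cos (2 * Real.pi * (θ * m + φ)) +
            Real.cos (2 * Real.pi * (θ' * m + φ'))| ≤
          q * (1 + (Real.cos (2 * Real.pi * ((θ + θ') * m + (φ + φ'))) +
            Real.cos (2 * Real.pi * ((θ - θ') * m + (φ - φ')))) / 2) :=
        mul_le_mul hfm e1 (abs_nonneg _) hq0.le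
      linarith
    · rw [if_neg hm] at hfm
      rw [if_neg hm]
      have : f m = 0 := abs_eq_zero.1 (le_antisymm hfm (abs_nonneg _))
      rw [this, zero_mul, zero_mul, add_zero]
  rw [Finset.sum_add_distrib, Finset.sum_add_distrib, Finset.sum_const, nsmul_eq_mul,
    ← Finset.mul_sum, ← Finset.mul_sum] at hsum
  have hq2 : (0 : ℝ) ≤ q / 2 := by positivity
  have m1 := mul_le_mul_of_nonneg_left g1' hq2
  have m2 := mul_le_mul_of_nonneg_left g2' hq2
  have e6 : (q : ℝ) / 2 * (N / (10 * q)) = N / 20 := by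
    field_simp
    ring
  rw [e6] at m1 m2
  unfold G
  rw [← add_div, div_le_iff₀ hN0]
  have e7 : (11 / 10 + (q : ℝ) / N) * N = 11 / 10 * N + q := by
    field_simp
  rw [e7]
  linarith

end Pool.Agent.H88.EN
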